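import Pool.Agent.Q109.AS.Stm

/-!
# Project AS (helper109): the chain of Ruzsa triangle inequalities
-/

set_option autoImplicit false

open scoped Pointwise

namespace Pool.Agent.Q44.AS

open Pool.Agent.Q109.AS

theorem step (M s s' : ℕ) (U0 V1 U1 V2 : Finset ℤ) (hM : M ≤ (V1 - U1).card)
    (h1 : (U0 + V1).card ≤ s) (h2 : (U1 + V2).card ≤ s) (h3 : (U0 + V2).card ≤ s') :
    M * U0.card * V2.card ≤ s ^ 2 * s' := by
  have e1 := Finset.ruzsa_triangle_inequality_sub_add_add V1 U0 U1
  rw [add_comm U1 U0] at e1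
  have e2 := Finset.ruzsa_triangle_inequality_add_add_add U0 V2 U1
  calc M * U0.card * V2.card ≤ (V1 - U1).card * U0.card * V2.card := by gcongr
    _ ≤ ((V1 + U0).card * (U0 + U1).card) * V2.card := Nat.mul_le_mul_right _ e1
    _ = (V1 + U0).card * ((U0 + U1).card * V2.card) := by ring
    _ ≤ (V1 + U0).card * ((U0 + V2).card * (V2 + U1).card) := Nat.mul_le_mul_left _ e2
    _ = (U0 + V1).card * ((U0 + V2).card * (U1 + V2).card) := by
        rw [add_comm V1 U0, add_comm V2 U1]
    _ ≤ s * (s' * s) := by gcongr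
    _ = s ^ 2 * s' := by ring

theorem ch : S_CH := by
  intro K M s s' U V hK hU hV hM hs hs'
  have key : ∀ L : ℕ, 1 ≤ L → L ≤ K →
      M ^ (2 * L - 1) * (V (2 * L)).card ≤ (s ^ 2 * s') ^ L := by
    intro L hL
    induction L, hL using Nat.le_induction with
    | base =>
      intro hLK
      have h := step M s s' (U 0) (V 1) (U 1) (V 2) (hM 1) (hs 0 (by omega)) (hs 1 (by omega))
        (hs' 0 (by omega))
      have h0 : 1 ≤ (U 0).card := (hU 0).card_pos
      calc M ^ (2 * 1 - 1) * (V (2 * 1)).card = M * 1 * (V 2).card := by norm_num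
        _ ≤ M * (U 0).card * (V 2).card := by gcongr
        _ ≤ s ^ 2 * s' := h
        _ = _ := (pow_one _).symm
    | succ L hL ih =>
      intro hLK
      have h := step M s s' (U (2 * L)) (V (2 * L + 1)) (U (2 * L + 1)) (V (2 * L + 2))
        (hM _) (hs _ (by omega)) (hs _ (by omega)) (hs' _ (by omega))
      have h1 : M ≤ (V (2 * L)).card * (U (2 * L)).card :=
        (hM (2 * L)).trans (Finset.card_sub_le)
      have h2 := ih (by omega)
      have e : 2 * (L + 1) - 1 = (2 * L - 1) + 1 + 1 := by omega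
      calc M ^ (2 * (L + 1) - 1) * (V (2 * (L + 1))).card
          = M ^ (2 * L - 1) * M * (M * (V (2 * L + 2)).card) := by
            rw [e, pow_succ, pow_succ]; ring_nf
        _ ≤ M ^ (2 * L - 1) * ((V (2 * L)).card * (U (2 * L)).card) *
              (M * (V (2 * L + 2)).card) := by gcongr
        _ = (M ^ (2 * L - 1) * (V (2 * L)).card) *
              (M * (U (2 * L)).card * (V (2 * L + 2)).card) := by ring
        _ ≤ (s ^ 2 * s') ^ L * (s ^ 2 * s') := by gcongr
        _ = _ := (pow_succ _ _).symm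
  have h := key K hK le_rfl
  have h1 : 1 ≤ (V (2 * K)).card := (hV _).card_pos
  calc M ^ (2 * K - 1) = M ^ (2 * K - 1) * 1 := (mul_one _).symm
    _ ≤ M ^ (2 * K - 1) * (V (2 * K)).card := by gcongr
    _ ≤ _ := h

end Pool.Agent.Q44.AS
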